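import Mathlib

/-!
Combinatorial core: Hechler-type cones in the Baire space, a fusion lemma, and the transfinite
construction of an increasing unbounded sequence all of whose coded cover sequences admit a selection.
-/

namespace Pool.Agent.MP_1b3842_gt.H25

open Filter Set

abbrev B := ℕ → ℕ

/-- eventual domination -/
def Le (x y : B) : Prop := ∀ᶠ n in atTop, x n ≤ y n

theorem Le.refl (x : B) : Le x x := Eventually.of_forall fun _ => le_rfl

theorem Le.trans {x y z : B} (h1 : Le x y) (h2 : Le y z) : Le x z := by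
  filter_upwards [h1, h2] with n a b using a.trans b

theorem zero_Le (x : B) : Le 0 x := Eventually.of_forall fun _ => Nat.zero_le _

/-- functions extending the first `m` values of `s` and above `h` from `m` on -/
def Cone (s : B) (m : ℕ) (h : B) : Set B := {x | (∀ i < m, x i = s i) ∧ ∀ i, m ≤ i → h i ≤ x i}

/-- `O` meets every cone over `h` -/
def Good (O : Set B) (h : B) : Prop := ∀ s m, ∃ y ∈ Cone s m h, y ∈ O

theorem Good.mono {O : Set B} {h h' : B} (hg : Good O h) (hle : Le h' h) : Good O h' := by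
  intro s m
  obtain ⟨N, hN⟩ := eventually_atTop.1 hle
  obtain ⟨y, ⟨hy1, hy2⟩, hyO⟩ := hg (fun i => if i < m then s i else h' i) (max m N)
  refine ⟨y, ⟨fun i hi => ?_, fun i hi => ?_⟩, hyO⟩
  · rw [hy1 i (lt_max_of_lt_left hi)]; simp [hi]
  · by_cases hi' : i < max m N
    · rw [hy1 i hi']; simp [not_lt.2 hi]
    · push Not at hi'
      exact (hN i ((le_max_right _ _).trans hi')).trans (hy2 i hi')

theorem isOpen_iff_cyl {O : Set B} :
    IsOpen O ↔ ∀ x ∈ O, ∃ l, ∀ y : B, (∀ i < l, y i = x i) → y ∈ O := by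
  constructor
  · intro hO x hx
    obtain ⟨v, ⟨z, n, rfl⟩, hxv, hv⟩ :=
      (PiNat.isTopologicalBasis_cylinders (fun _ : ℕ => ℕ)).exists_subset_of_mem_open hx hO
    refine ⟨n, fun y hy => hv ?_⟩
    rw [PiNat.mem_cylinder_iff] at hxv ⊢
    intro i hi
    rw [hy i hi, hxv i hi]
  · intro h
    refine (PiNat.isTopologicalBasis_cylinders (fun _ : ℕ => ℕ)).isOpen_iff.2 fun x hx => ?_
    obtain ⟨l, hl⟩ := h x hx
    exact ⟨PiNat.cylinder x l, ⟨x, l, rfl⟩, PiNat.self_mem_cylinder x l,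
      fun y hy => hl y (PiNat.mem_cylinder_iff.1 hy)⟩

/-- the set of `h` whose cone at `(s, m)` meets `O` -/
def Hit (O : Set B) (s : B) (m : ℕ) : Set B := {h | ∃ y ∈ Cone s m h, y ∈ O}

theorem isOpen_hit {O : Set B} (hO : IsOpen O) (s : B) (m : ℕ) : IsOpen (Hit O s m) := by
  rw [isOpen_iff_cyl]
  rintro h ⟨y, ⟨hy1, hy2⟩, hyO⟩
  obtain ⟨l, hl⟩ := isOpen_iff_cyl.1 hO y hyO
  refine ⟨max l m, fun h' hh' => ⟨fun i => if i < max l m then y i else h' i, ⟨?_, ?_⟩, ?_⟩⟩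
  · intro i hi
    simp only [lt_max_of_lt_right hi, if_true]
    exact hy1 i hi
  · intro i hi
    by_cases hi' : i < max l m
    · simp only [hi', if_true]
      rw [hh' i hi']
      exact hy2 i hi
    · simp only [hi', if_false]
      exact le_rfl
  · apply hl
    intro i hi
    simp only [lt_max_of_lt_left hi, if_true]

theorem Good.hit {O : Set B} {h : B} (hg : Good O h) (s : B) (m : ℕ) : Good (Hit O s m) h := by
  intro t l
  refine ⟨fun i => if i < l then t i else h i, ⟨fun i hi => by simp [hi], fun i hi => by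
    simp [not_lt.2 hi]⟩, ?_⟩
  apply hg.mono
  filter_upwards [eventually_ge_atTop l] with i hi
  simp [not_lt.2 hi]

/-- countable codes for initial segments -/
abbrev Code := Σ m : ℕ, Fin m → ℕ

def Code.ext (p : Code) : B := fun i => if h : i < p.1 then p.2 ⟨i, h⟩ else 0

theorem exists_code (s : B) (m : ℕ) : ∃ p : Code, ∀ h, Cone p.ext p.1 h = Cone s m h := by
  refine ⟨⟨m, fun i => s i⟩, fun h => ?_⟩
  ext x
  simp only [Cone, Code.ext, mem_ofPred_eq]
  constructor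
  · rintro ⟨h1, h2⟩
    exact ⟨fun i hi => by simpa [hi] using h1 i hi, h2⟩
  · rintro ⟨h1, h2⟩
    exact ⟨fun i hi => by simpa [hi] using h1 i hi, h2⟩

theorem good_of_codes {O : Set B} {h : B} (hc : ∀ p : Code, h ∈ Hit O p.ext p.1) : Good O h := by
  intro s m
  obtain ⟨p, hp⟩ := exists_code s m
  obtain ⟨y, hy, hyO⟩ := hc p
  exact ⟨y, hp h ▸ hy, hyO⟩

/-- Fusion: a generic point for countably many open sets that are good for a countable chain. -/
theorem fusion_seq (e : ℕ → B) (htot : ∀ i j, Le (e i) (e j) ∨ Le (e j) (e i))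
    (V : ℕ → Set B) (hV : ∀ k, IsOpen (V k)) (hg : ∀ k i, Good (V k) (e i))
    (s : B) (m : ℕ) (i0 : ℕ) :
    ∃ x ∈ Cone s m (e i0), (∀ k, x ∈ V k) ∧ ∀ i, Le (e i) x := by
  -- states
  let St := {p : B × ℕ × B // ∃ j, Le p.2.2 (e j)}
  have step : ∀ (k : ℕ) (p : St), ∃ q : St, p.1.2.1 < q.1.2.1 ∧
      q.1.1 ∈ Cone p.1.1 p.1.2.1 p.1.2.2 ∧
      (∀ y : B, (∀ i < q.1.2.1, y i = q.1.1 i) → y ∈ V k) ∧
      (∀ i, p.1.2.2 i ≤ q.1.2.2 i) ∧ (∀ i, e k i ≤ q.1.2.2 i) := by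
    rintro k ⟨⟨t, l, h⟩, j, hj⟩
    obtain ⟨y, hy, hyV⟩ := (hg k j).mono hj t l
    obtain ⟨l', hl'⟩ := isOpen_iff_cyl.1 (hV k) y hyV
    have hb : ∃ j', Le (fun i => max (h i) (e k i)) (e j') := by
      rcases htot j k with h1 | h1
      · refine ⟨k, ?_⟩
        filter_upwards [hj.trans h1] with n hn using max_le hn le_rfl
      · refine ⟨j, ?_⟩
        filter_upwards [hj, h1] with n hn hn' using max_le hn hn'
    refine ⟨⟨(y, max (l + 1) l', fun i => max (h i) (e k i)), hb⟩, ?_, hy, ?_, ?_, ?_⟩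
    · exact lt_max_of_lt_left (Nat.lt_succ_self l)
    · intro z hz
      exact hl' z fun i hi => hz i (lt_max_of_lt_right hi)
    · intro i; exact le_max_left _ _
    · intro i; exact le_max_right _ _
  choose F hF1 hF2 hF3 hF4 hF5 using step
  let p : ℕ → St := fun n => Nat.rec ⟨(s, m, e i0), i0, Le.refl _⟩ (fun k q => F k q) n
  have hp : ∀ n, p (n + 1) = F n (p n) := fun n => rfl
  let t : ℕ → B := fun n => (p n).1.1
  let l : ℕ → ℕ := fun n => (p n).1.2.1
  let h : ℕ → B := fun n => (p n).1.2.2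
  have hl : StrictMono l := strictMono_nat_of_lt_succ fun n => hF1 n (p n)
  have hc : ∀ n, t (n + 1) ∈ Cone (t n) (l n) (h n) := fun n => hF2 n (p n)
  have hsub : ∀ n, Cone (t (n + 1)) (l (n + 1)) (h (n + 1)) ⊆ Cone (t n) (l n) (h n) := by
    rintro n x ⟨hx1, hx2⟩
    refine ⟨fun i hi => ?_, fun i hi => ?_⟩
    · rw [hx1 i (hi.trans (hl (Nat.lt_succ_self n))), (hc n).1 i hi]
    · by_cases hi' : i < l (n + 1)
      · rw [hx1 i hi']; exact (hc n).2 i hi
      · exact (hF4 n (p n) i).trans (hx2 i (not_lt.1 hi'))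
  have hanti : Antitone fun n => Cone (t n) (l n) (h n) := antitone_nat_of_succ_le hsub
  have hc' : ∀ i j, i ≤ j → t (j + 1) ∈ Cone (t i) (l i) (h i) := fun i j hij => hanti hij (hc j)
  let x : B := fun n => t (n + 1) n
  have hx : ∀ n j, n ≤ j → x n = t (j + 1) n := by
    intro n j hj
    rcases hj.eq_or_lt with rfl | hj
    · rfl
    · exact ((hc' (n + 1) j hj).1 n ((Nat.lt_succ_self n).trans_le (hl.id_le (n + 1)))).symm
  have hxc : ∀ i, x ∈ Cone (t i) (l i) (h i) := by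
    intro i
    refine ⟨fun n hn => ?_, fun n hn => ?_⟩
    · rw [hx n (max i n) (le_max_right _ _)]
      exact (hc' i (max i n) (le_max_left _ _)).1 n hn
    · rw [hx n (max i n) (le_max_right _ _)]
      exact (hc' i (max i n) (le_max_left _ _)).2 n hn
  refine ⟨x, hxc 0, fun k => hF3 k (p k) x (hxc (k + 1)).1, fun i => ?_⟩
  filter_upwards [eventually_ge_atTop (l (i + 1))] with n hn
  exact (hF5 i (p i) n).trans ((hxc (i + 1)).2 n hn)

/-- Fusion for a countable chain `H` and a countable family of open sets, keeping goodness. -/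
theorem fusion (H : Set B) (hH : H.Countable) (htot : ∀ a ∈ H, ∀ b ∈ H, Le a b ∨ Le b a)
    (𝒪 : Set (Set B)) (h𝒪 : 𝒪.Countable) (hop : ∀ O ∈ 𝒪, IsOpen O)
    (hg : ∀ O ∈ 𝒪, ∀ h ∈ H, Good O h) (s : B) (m : ℕ) (h0 : B) (hh0 : h0 ∈ H) :
    ∃ x ∈ Cone s m h0, (∀ O ∈ 𝒪, x ∈ O ∧ Good O x) ∧ ∀ h ∈ H, Le h x := by
  obtain ⟨e, rfl⟩ := hH.exists_eq_range ⟨h0, hh0⟩
  obtain ⟨i0, rfl⟩ := hh0
  let 𝒱 : Set (Set B) := insert univ (𝒪 ∪ ⋃ O ∈ 𝒪, range fun p : Code => Hit O p.ext p.1)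
  have h𝒱 : 𝒱.Countable :=
    (h𝒪.union (h𝒪.biUnion fun O _ => countable_range _)).insert _
  obtain ⟨V, hV⟩ := h𝒱.exists_eq_range ⟨univ, mem_insert _ _⟩
  have hVk : ∀ k, IsOpen (V k) ∧ ∀ i, Good (V k) (e i) := by
    intro k
    have : V k ∈ 𝒱 := hV ▸ mem_range_self k
    rcases this with h1 | h1 | h1
    · rw [h1]
      refine ⟨isOpen_univ, fun i t l => ⟨fun n => if n < l then t n else e i n,
        ⟨fun n hn => by simp [hn], fun n hn => by simp [not_lt.2 hn]⟩, mem_univ _⟩⟩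
    · exact ⟨hop _ h1, fun i => hg _ h1 _ (mem_range_self i)⟩
    · simp only [mem_iUnion, mem_range] at h1
      obtain ⟨O, hO, p, hp⟩ := h1
      rw [← hp]
      exact ⟨isOpen_hit (hop O hO) _ _, fun i => (hg O hO _ (mem_range_self i)).hit _ _⟩
  obtain ⟨x, hx, hxV, hxe⟩ := fusion_seq e
    (fun i j => htot _ (mem_range_self i) _ (mem_range_self j)) V (fun k => (hVk k).1)
    (fun k => (hVk k).2) s m i0
  have hx𝒱 : ∀ O ∈ 𝒱, x ∈ O := by
    intro O hO
    rw [hV] at hO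
    obtain ⟨k, rfl⟩ := hO
    exact hxV k
  refine ⟨x, hx, fun O hO => ⟨hx𝒱 O (Or.inr (Or.inl hO)), good_of_codes fun p => hx𝒱 _ ?_⟩, ?_⟩
  · refine Or.inr (Or.inr ?_)
    simp only [mem_iUnion, mem_range]
    exact ⟨O, hO, p, rfl⟩
  · rintro _ ⟨i, rfl⟩
    exact hxe i

/-- every countable set of functions is eventually dominated -/
theorem exists_bound (Y : Set B) (hY : Y.Countable) : ∃ g : B, ∀ y ∈ Y, Le y g := by
  rcases Y.eq_empty_or_nonempty with rfl | hne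
  · exact ⟨0, by simp⟩
  obtain ⟨f, rfl⟩ := hY.exists_eq_range hne
  refine ⟨fun n => (Finset.range (n + 1)).sup fun i => f i n, ?_⟩
  rintro _ ⟨i, rfl⟩
  filter_upwards [eventually_ge_atTop i] with n hn
  exact Finset.le_sup (f := fun i => f i n) (Finset.mem_range.2 (Nat.lt_succ_of_le hn))

section Stage

variable (e : ℕ → Set B)

/-- points covered at every level by the coded sequence of families -/
def Cov (S : ℕ → Set ℕ) : Set B := {x | ∀ n, ∃ i ∈ S n, x ∈ e i}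

/-- points covered at some level `n ≥ k` by a member with index at most `g n` -/
def Sel (S : ℕ → Set ℕ) (g : B) (k : ℕ) : Set B := {x | ∃ n, k ≤ n ∧ ∃ i ∈ S n, i ≤ g n ∧ x ∈ e i}

theorem isOpen_sel (he : ∀ i, IsOpen (e i)) (S : ℕ → Set ℕ) (g : B) (k : ℕ) :
    IsOpen (Sel e S g k) := by
  rw [isOpen_iff_forall_mem_open]
  rintro x ⟨n, hn, i, hi, hig, hx⟩
  exact ⟨e i, fun y hy => ⟨n, hn, i, hi, hig, hy⟩, he i, hx⟩

theorem exists_sel (S : ℕ → Set ℕ) (Y : Set B) (hY : Y.Countable) (hYG : Y ⊆ Cov e S) :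
    ∃ g : B, ∀ y ∈ Y, ∀ k, y ∈ Sel e S g k := by
  have : ∀ y : Y, ∃ f : B, ∀ n, f n ∈ S n ∧ y.1 ∈ e (f n) := by
    intro y
    choose f hf using hYG y.2
    exact ⟨f, hf⟩
  choose f hf using this
  have := hY.to_subtype
  obtain ⟨g, hg⟩ := exists_bound (range f) (countable_range f)
  refine ⟨g, fun y hy k => ?_⟩
  obtain ⟨N, hN⟩ := eventually_atTop.1 (hg _ (mem_range_self ⟨y, hy⟩))
  exact ⟨max k N, le_max_left _ _, f ⟨y, hy⟩ (max k N), (hf _ _).1, hN _ (le_max_right _ _),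
    (hf ⟨y, hy⟩ _).2⟩

theorem good_univ (h : B) : Good univ h := fun t l =>
  ⟨fun n => if n < l then t n else h n,
    ⟨fun n hn => by simp [hn], fun n hn => by simp [not_lt.2 hn]⟩, mem_univ _⟩

/-- One stage: either the code can be killed, or a selection is promised. -/
theorem stage (he : ∀ i, IsOpen (e i)) (S : ℕ → Set ℕ) (Z : Set B) (hZ : Z.Countable) :
    ∃ O : ℕ → Set B, (∀ k, IsOpen (O k)) ∧ (∀ k, ∀ h ∈ insert (0 : B) Z, Good (O k) h) ∧
      (∀ k, Z ⊆ O k) ∧ ∃ s m, ∃ h0 ∈ insert (0 : B) Z,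
        ((∀ x ∈ Cone s m h0, x ∉ Cov e S) ∨ (∃ z ∈ Z, z ∉ Cov e S) ∨
          ∃ g, ∀ k, O k = Sel e S g k) := by
  by_cases hA : ∃ z ∈ Z, z ∉ Cov e S
  · exact ⟨fun _ => univ, fun _ => isOpen_univ, fun _ h _ => good_univ h, fun _ => subset_univ _,
      0, 0, 0, mem_insert _ _, Or.inr (Or.inl hA)⟩
  by_cases hB : ∃ s m, ∃ h0 ∈ insert (0 : B) Z, ∀ x ∈ Cone s m h0, x ∉ Cov e S
  · obtain ⟨s, m, h0, hh0, hB⟩ := hB
    exact ⟨fun _ => univ, fun _ => isOpen_univ, fun _ h _ => good_univ h, fun _ => subset_univ _,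
      s, m, h0, hh0, Or.inl hB⟩
  push Not at hA hB
  have hH : (insert (0 : B) Z).Countable := hZ.insert _
  have := hH.to_subtype
  have : ∀ q : (insert (0 : B) Z : Set B) × Code, ∃ y ∈ Cone q.2.ext q.2.1 q.1.1, y ∈ Cov e S :=
    fun q => hB _ _ _ q.1.2
  choose w hw1 hw2 using this
  obtain ⟨g, hg⟩ := exists_sel e S (Z ∪ range w) (hZ.union (countable_range w)) (by
    rintro y (hy | ⟨q, rfl⟩)
    · exact hA y hy
    · exact hw2 q)
  refine ⟨fun k => Sel e S g k, fun k => isOpen_sel e he S g k, fun k h hh => ?_,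
    fun k z hz => hg z (Or.inl hz) k, 0, 0, 0, mem_insert _ _, Or.inr (Or.inr ⟨g, fun _ => rfl⟩)⟩
  exact good_of_codes fun p =>
    ⟨w (⟨h, hh⟩, p), hw1 (⟨h, hh⟩, p), hg _ (Or.inr (mem_range_self _)) k⟩

end Stage

/-- transfinite recursion with choices -/
theorem exists_rec {ι α : Type} [LinearOrder ι] [WellFoundedLT ι] [Nonempty α]
    (P : (β : ι) → (Iio β → α) → α → Prop)
    (step : ∀ (β : ι) (f : ι → α), (∀ δ < β, P δ (fun γ => f γ) (f δ)) →
      ∃ a, P β (fun γ => f γ) a) :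
    ∃ f : ι → α, ∀ β, P β (fun γ => f γ) (f β) := by
  let F : ι → α := (wellFounded_lt (α := ι)).fix
    (fun β prev => Classical.epsilon (P β (fun γ => prev γ γ.2)))
  have hF : ∀ β, F β = Classical.epsilon (P β (fun γ => F γ)) := fun β =>
    WellFounded.fix_eq _ _ _
  refine ⟨F, fun β => ?_⟩
  induction β using (wellFounded_lt (α := ι)).induction with
  | _ β ih =>
    rw [hF β]
    exact Classical.epsilon_spec (step β F ih)

/-- The main construction. -/
theorem construction {ι : Type} [LinearOrder ι] [WellFoundedLT ι]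
    (hι : ∀ β : ι, (Iio β).Countable) (e : ℕ → Set B) (he : ∀ i, IsOpen (e i))
    (S : ι → ℕ → Set ℕ) (b : ι → B) :
    ∃ x : ι → B, (∀ δ β, δ < β → Le (x δ) (x β)) ∧ (∀ β k, ∃ n, k ≤ n ∧ b β n < x β n) ∧
      ∀ β, (∀ γ, x γ ∈ Cov e (S β)) → ∃ g, ∀ γ k, x γ ∈ Sel e (S β) g k := by
  let P : (β : ι) → (Iio β → B × (ℕ → Set B)) → B × (ℕ → Set B) → Prop := fun β prev a =>
    (∀ k, IsOpen (a.2 k)) ∧ (∀ δ, Le (prev δ).1 a.1) ∧ (∀ k, ∃ n, k ≤ n ∧ b β n < a.1 n) ∧
    (∀ δ k, a.1 ∈ (prev δ).2 k ∧ Good ((prev δ).2 k) a.1) ∧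
    (∀ k, a.1 ∈ a.2 k ∧ Good (a.2 k) a.1) ∧ (∀ δ k, (prev δ).1 ∈ a.2 k) ∧
    (a.1 ∉ Cov e (S β) ∨ (∃ δ, (prev δ).1 ∉ Cov e (S β)) ∨ ∃ g, ∀ k, a.2 k = Sel e (S β) g k)
  obtain ⟨f, hf⟩ := exists_rec P (by
    intro β f ih
    let Z : Set B := (fun δ => (f δ).1) '' Iio β
    have hZ : Z.Countable := (hι β).image _
    obtain ⟨O, hO1, hO2, hO3, s, m, h0, hh0, hO4⟩ := stage e he (S β) Z hZ
    have hle : ∀ γ δ, γ ≤ δ → δ < β → Le (f γ).1 (f δ).1 := by
      intro γ δ h1 h2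
      rcases h1.eq_or_lt with rfl | h1
      · exact Le.refl _
      · exact (ih δ h2).2.1 ⟨γ, h1⟩
    let U : ℕ → Set B := fun k => {y | ∃ n, k ≤ n ∧ b β n < y n}
    let 𝒪 : Set (Set B) := (⋃ δ ∈ Iio β, range (f δ).2) ∪ range O ∪ range U
    have h𝒪 : 𝒪.Countable :=
      (((hι β).biUnion fun δ _ => countable_range _).union (countable_range _)).union
        (countable_range _)
    obtain ⟨x, hx, hxO, hxH⟩ := fusion (insert (0 : B) Z) (hZ.insert _) (by
        rintro a (rfl | ⟨γ, hγ, rfl⟩) c hc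
        · exact Or.inl (zero_Le _)
        rcases hc with rfl | ⟨δ, hδ, rfl⟩
        · exact Or.inr (zero_Le _)
        rcases le_total γ δ with h | h
        · exact Or.inl (hle γ δ h hδ)
        · exact Or.inr (hle δ γ h hγ)) 𝒪 h𝒪 (by
        rintro V ((hV | ⟨k, rfl⟩) | ⟨k, rfl⟩)
        · simp only [mem_iUnion, mem_range] at hV
          obtain ⟨δ, hδ, k, rfl⟩ := hV
          exact (ih δ hδ).1 k
        · exact hO1 k
        · rw [isOpen_iff_cyl]
          rintro y ⟨n, hn, hy⟩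
          exact ⟨n + 1, fun z hz => ⟨n, hn, by rwa [hz n (Nat.lt_succ_self n)]⟩⟩) (by
        rintro V ((hV | ⟨k, rfl⟩) | ⟨k, rfl⟩) h hh
        · simp only [mem_iUnion, mem_range] at hV
          obtain ⟨δ, hδ, k, rfl⟩ := hV
          have hδδ : Good ((f δ).2 k) (f δ).1 := ((ih δ hδ).2.2.2.2.1 k).2
          rcases hh with rfl | ⟨γ, hγ, rfl⟩
          · exact hδδ.mono (zero_Le _)
          rcases le_or_gt γ δ with h | h
          · exact hδδ.mono (hle γ δ h hδ)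
          · exact ((ih γ hγ).2.2.2.1 ⟨δ, h⟩ k).2
        · exact hO2 k h hh
        · intro t l
          refine ⟨fun n => if n < l then t n else max (h n) (b β n + 1),
            ⟨fun n hn => by simp [hn], fun n hn => by simp [not_lt.2 hn]⟩,
            max k l, le_max_left _ _, ?_⟩
          simp only [not_lt.2 (le_max_right k l), if_false]
          exact lt_max_of_lt_right (Nat.lt_succ_self _)) s m h0 hh0
    refine ⟨(x, O), hO1, fun δ => hxH _ (Or.inr ⟨δ, δ.2, rfl⟩),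
      fun k => (hxO (U k) (Or.inr ⟨k, rfl⟩)).1, fun δ k => hxO _ (Or.inl (Or.inl ?_)),
      fun k => hxO _ (Or.inl (Or.inr ⟨k, rfl⟩)), fun δ k => hO3 k ⟨δ, δ.2, rfl⟩, ?_⟩
    · simp only [mem_iUnion, mem_range]
      exact ⟨δ, δ.2, k, rfl⟩
    · rcases hO4 with h | ⟨_, ⟨δ, hδ, rfl⟩, h⟩ | h
      · exact Or.inl (h x hx)
      · exact Or.inr (Or.inl ⟨⟨δ, hδ⟩, h⟩)
      · exact Or.inr (Or.inr h))
  refine ⟨fun β => (f β).1, fun δ β h => (hf β).2.1 ⟨δ, h⟩, fun β => (hf β).2.2.1,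
    fun β hβ => ?_⟩
  rcases (hf β).2.2.2.2.2.2 with h | ⟨δ, h⟩ | ⟨g, hg⟩
  · exact absurd (hβ β) h
  · exact absurd (hβ δ) h
  refine ⟨g, fun γ k => ?_⟩
  rw [← hg k]
  rcases lt_trichotomy γ β with h | rfl | h
  · exact (hf β).2.2.2.2.2.1 ⟨γ, h⟩ k
  · exact ((hf γ).2.2.2.2.1 k).1
  · exact ((hf γ).2.2.2.1 ⟨β, h⟩ k).1

/-- the map to strictly increasing functions -/
def Inc (x : B) : B := fun n => (Finset.range (n + 1)).sup x + n

theorem strictMono_inc (x : B) : StrictMono (Inc x) := by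
  apply strictMono_nat_of_lt_succ
  intro n
  have : (Finset.range (n + 1)).sup x ≤ (Finset.range (n + 1 + 1)).sup x :=
    Finset.sup_mono (Finset.range_mono (Nat.le_succ _))
  simp only [Inc]
  omega

theorem le_inc (x : B) (n : ℕ) : x n ≤ Inc x n :=
  (Finset.le_sup (f := x) (Finset.mem_range.2 (Nat.lt_succ_self n))).trans (Nat.le_add_right _ _)

theorem inc_Le {x y : B} (h : Le x y) (hy : ∀ C, ∃ j, C ≤ y j) : Le (Inc x) (Inc y) := by
  obtain ⟨m, hm⟩ := eventually_atTop.1 h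
  obtain ⟨j, hj⟩ := hy ((Finset.range m).sup x)
  filter_upwards [eventually_ge_atTop j] with n hn
  simp only [Inc]
  refine Nat.add_le_add_right (Finset.sup_le fun i hi => ?_) n
  by_cases him : i < m
  · exact ((Finset.le_sup (f := x) (Finset.mem_range.2 him)).trans hj).trans
      (Finset.le_sup (f := y) (Finset.mem_range.2 (Nat.lt_succ_of_le hn)))
  · exact (hm i (not_lt.1 him)).trans (Finset.le_sup (f := y) hi)

theorem continuous_inc : Continuous Inc := by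
  rw [continuous_def]
  intro O hO
  rw [isOpen_iff_cyl] at hO ⊢
  intro x hx
  obtain ⟨l, hl⟩ := hO _ hx
  refine ⟨l, fun y hy => hl _ fun i hi => ?_⟩
  simp only [Inc]
  congr 1
  exact Finset.sup_congr rfl fun j hj => hy j (by have := Finset.mem_range.1 hj; omega)

end Pool.Agent.MP_1b3842_gt.H25
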